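import Pool.Agent.MP_e6e7b2_al.Mg.Poly

open Pool.Agent.MP_e6e7b2_al

/-- Both halves of the question: false for formal power series (in every dimension `n ≥ 3`),
true for polynomials (in every dimension). -/
theorem Pool.Agent.Results.MP_e6e7b2_al.Full.result :
    (∀ n : ℕ, 3 ≤ n → ∃ P : MvPowerSeries (Fin n) ℂ, IsSelfInverting P ∧ ¬ IsHN P) ∧
    (∀ (n : ℕ) (p : MvPolynomial (Fin n) ℂ),
      IsSelfInverting (p : MvPowerSeries (Fin n) ℂ) → IsHN (p : MvPowerSeries (Fin n) ℂ)) :=
  ⟨exists_counterexample, fun _ p hp => isHN_of_polynomial p hp⟩
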